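import Pool.Agent.Helper72.HC.Main

/-!
# MP_01be47_gt, Q1: the sigma-ideals `σ𝒢₀` and `σ𝒟₀` of the Hilbert cube are different

The set of all points of the Hilbert cube with irrational coordinates is zero-dimensional and is
not covered by countably many minimal dense `G_δ`-sets.
-/

open Set Topology

namespace Pool.Agent.Results.MP_01be47_gt.NotCovered

/-- The Hilbert cube `[0,1]^ω`, with the product topology. -/
abbrev HilbertCube : Type := ℕ → unitInterval

/-- `A` is a minimal dense `G_δ`-set: a dense `G_δ`-set such that for every dense `G_δ`-set `B`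
there is a homeomorphism `h` of the Hilbert cube with `h(A) ⊆ B`. -/
def IsMinimalDenseGdelta (A : Set HilbertCube) : Prop :=
  IsGδ A ∧ Dense A ∧
    ∀ B : Set HilbertCube, IsGδ B → Dense B → ∃ h : HilbertCube ≃ₜ HilbertCube, h '' A ⊆ B

/-- The family `𝒢₀` of all minimal dense `G_δ`-sets. -/
def G0 : Set (Set HilbertCube) := {A | IsMinimalDenseGdelta A}

/-- The family `𝒟₀` of all zero-dimensional subspaces: the clopen subsets of the subspace `A`
form a base of its topology. -/
def D0 : Set (Set HilbertCube) :=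
  {A | TopologicalSpace.IsTopologicalBasis {U : Set A | IsClopen U}}

/-- The `σ`-ideal generated by `F`: all sets covered by countably many members of `F`. -/
def sigmaIdeal (F : Set (Set HilbertCube)) : Set (Set HilbertCube) :=
  {S | ∃ C : Set (Set HilbertCube), C.Countable ∧ C ⊆ F ∧ S ⊆ ⋃₀ C}

/-- The points all of whose coordinates are irrational. -/
def irrationalPoints : Set HilbertCube := {x | ∀ n, Irrational (x n : ℝ)}

theorem isClopen_Ioo (i : ℕ) (r s : ℚ) :
    IsClopen {x : irrationalPoints | (r : ℝ) < (x.1 i : ℝ) ∧ (x.1 i : ℝ) < s} := by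
  have hc : Continuous fun x : irrationalPoints => (x.1 i : ℝ) :=
    continuous_subtype_val.comp ((continuous_apply i).comp continuous_subtype_val)
  constructor
  · have : {x : irrationalPoints | (r : ℝ) < (x.1 i : ℝ) ∧ (x.1 i : ℝ) < s} =
        {x : irrationalPoints | (r : ℝ) ≤ (x.1 i : ℝ)} ∩
          {x : irrationalPoints | (x.1 i : ℝ) ≤ s} := by
      ext x
      constructor
      · exact fun h => ⟨h.1.le, h.2.le⟩
      · exact fun h => ⟨lt_of_le_of_ne h.1 ((x.2 i).ne_rat r).symm,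
          lt_of_le_of_ne h.2 ((x.2 i).ne_rat s)⟩
    rw [this]
    exact (isClosed_le continuous_const hc).inter (isClosed_le hc continuous_const)
  · exact (isOpen_lt continuous_const hc).inter (isOpen_lt hc continuous_const)

theorem irrationalPoints_mem_D0 : irrationalPoints ∈ D0 := by
  refine TopologicalSpace.isTopologicalBasis_of_isOpen_of_nhds (fun U hU => hU.2) ?_
  intro a u ha hu
  obtain ⟨O, hO, rfl⟩ := isOpen_induced_iff.1 hu
  obtain ⟨I, U, hU, hsub⟩ := isOpen_pi_iff.1 hO a.1 ha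
  have h1 : ∀ i ∈ I, ∃ r s : ℚ, ((r : ℝ) < (a.1 i : ℝ) ∧ (a.1 i : ℝ) < s) ∧
      ∀ t : unitInterval, (r : ℝ) < t → (t : ℝ) < s → t ∈ U i := by
    intro i hi
    obtain ⟨O', hO', hOU⟩ := isOpen_induced_iff.1 (hU i hi).1
    have h2 : (a.1 i : ℝ) ∈ O' := by
      have := (hU i hi).2
      rw [← hOU] at this
      exact this
    obtain ⟨l, m, hlm, hlmO⟩ := mem_nhds_iff_exists_Ioo_subset.1 (hO'.mem_nhds h2)
    obtain ⟨r, hr1, hr2⟩ := exists_rat_btwn hlm.1
    obtain ⟨s, hs1, hs2⟩ := exists_rat_btwn hlm.2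
    refine ⟨r, s, ⟨hr2, hs1⟩, fun t ht1 ht2 => ?_⟩
    rw [← hOU]
    exact hlmO ⟨hr1.trans ht1, ht2.trans hs2⟩
  choose! r s hrs hU' using h1
  refine ⟨⋂ i ∈ I, {x : irrationalPoints | (r i : ℝ) < (x.1 i : ℝ) ∧ (x.1 i : ℝ) < s i},
    ?_, ?_, ?_⟩
  · exact I.finite_toSet.isClopen_biInter fun i _ => isClopen_Ioo i (r i) (s i)
  · simp only [mem_iInter]
    exact fun i hi => hrs i hi
  · intro x hx
    simp only [mem_iInter] at hx
    refine hsub fun i hi => ?_
    exact hU' i hi _ (hx i hi).1 (hx i hi).2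

attribute [local instance] PiCountable.metricSpace in
theorem exists_irrational_avoiding {V : ℕ → ℕ → ℕ → Set HilbertCube}
    (hV : ∀ i, Helper72.HC.NFam (V i)) :
    ∃ z ∈ irrationalPoints, ∀ i, z ∉ ⋂ k, ⋃ l, V i k l := by
  let D : Set unitInterval := {t | (t : ℝ) ∈ range ((↑) : ℚ → ℝ)}
  have hD : D.Countable :=
    (countable_range ((↑) : ℚ → ℝ)).preimage Subtype.val_injective
  have hne : ((univ : Set ℕ) ×ˢ D).Nonempty :=
    ⟨(0, 0), mem_univ _, ⟨0, by simp⟩⟩
  obtain ⟨w, hw⟩ := ((countable_univ : (univ : Set ℕ).Countable).prod hD).exists_eq_range hne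
  obtain ⟨z, hz, hz'⟩ := Helper72.HC.exists_avoiding hV w
  refine ⟨z, fun n => ?_, hz'⟩
  rintro hrat
  have h1 : (n, z n) ∈ (univ : Set ℕ) ×ˢ D := ⟨mem_univ _, hrat⟩
  rw [hw] at h1
  obtain ⟨m, hm⟩ := h1
  apply hz m
  rw [hm]

attribute [local instance] PiCountable.metricSpace in
theorem irrationalPoints_notMem : irrationalPoints ∉ sigmaIdeal G0 := by
  rintro ⟨C, hC, hCG, hcov⟩
  have h1 : ∀ A ∈ C, ∃ V : ℕ → ℕ → Set HilbertCube, Helper72.HC.NFam V ∧
      A ⊆ ⋂ k, ⋃ n, V k n := fun A hA =>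
    Helper72.HC.exists_nfam_of_movable (hCG hA).2.2
  choose! V hV hAV using h1
  rcases C.eq_empty_or_nonempty with rfl | hne
  · obtain ⟨V₀, hV₀, -⟩ := Helper72.HC.exists_nfam (X := HilbertCube)
    obtain ⟨z, hz, -⟩ := exists_irrational_avoiding (V := fun _ => V₀) (fun _ => hV₀)
    simpa using hcov hz
  · obtain ⟨f, hf⟩ := hC.exists_eq_range hne
    have hfC : ∀ i, f i ∈ C := fun i => by rw [hf]; exact mem_range_self i
    obtain ⟨z, hz, hz'⟩ := exists_irrational_avoiding (V := fun i => V (f i))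
      (fun i => hV _ (hfC i))
    obtain ⟨A, hA, hzA⟩ := hcov hz
    rw [hf] at hA
    obtain ⟨i, rfl⟩ := hA
    exact hz' i (hAV _ (hfC i) hzA)

theorem result : irrationalPoints ∈ D0 ∧ irrationalPoints ∉ sigmaIdeal G0 ∧
    sigmaIdeal G0 ≠ sigmaIdeal D0 := by
  refine ⟨irrationalPoints_mem_D0, irrationalPoints_notMem, fun h => ?_⟩
  apply irrationalPoints_notMem
  rw [h]
  exact ⟨{irrationalPoints}, countable_singleton _, by
    simpa using irrationalPoints_mem_D0, by simp⟩

end Pool.Agent.Results.MP_01be47_gt.NotCovered
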